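import Mathlib

/-! Ultrafilters whose ultrapower has a prescribed coinitial sequence of infinite elements. -/

namespace Pool.Agent.P.MP_efa640_lc

open Filter Set

section
variable {I W : Type} (g : W → I → ℕ+)

/-- a finite functional set of pairs -/
def Cond (t : Set (W × ℕ+)) : Prop :=
  t.Finite ∧ ∀ w n n', (w, n) ∈ t → (w, n') ∈ t → n = n'

def cyl (t : Set (W × ℕ+)) : Set I := {i | ∀ x ∈ t, g x.1 i = x.2}

def Indep (D : Filter I) : Prop := ∀ t, Cond t → ∀ X ∈ D, (X ∩ cyl g t).Nonempty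

def On (S : Set W) (t : Set (W × ℕ+)) : Prop := ∀ x ∈ t, x.1 ∈ S

def MaxIndep (D : Filter I) : Prop := Indep g D ∧ ∀ D' ≤ D, Indep g D' → D ≤ D'

def Dec (D : Filter I) (t : Set (W × ℕ+)) (A : Set I) : Prop := ∀ᶠ i in D, i ∈ cyl g t → i ∈ A

def Supp (D : Filter I) (S : Set W) (A : Set I) : Prop :=
  ∀ t, Cond t → On S t → ∃ t', Cond t' ∧ On S t' ∧ t ⊆ t' ∧ (Dec g D t' A ∨ Dec g D t' Aᶜ)

variable {g}

lemma cyl_mono {t t' : Set (W × ℕ+)} (h : t ⊆ t') : cyl g t' ⊆ cyl g t :=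
  fun _ hi x hx => hi x (h hx)

lemma cyl_union (t t' : Set (W × ℕ+)) : cyl g (t ∪ t') = cyl g t ∩ cyl g t' := by
  ext i
  simp only [cyl, mem_union, mem_inter_iff, mem_ofPred_eq]
  exact ⟨fun h => ⟨fun x hx => h x (Or.inl hx), fun x hx => h x (Or.inr hx)⟩,
    fun h x hx => hx.elim (h.1 x) (h.2 x)⟩

lemma cond_of_nonempty {t : Set (W × ℕ+)} (ht : t.Finite) (h : (cyl g t).Nonempty) : Cond t := by
  obtain ⟨i, hi⟩ := h
  exact ⟨ht, fun w n n' h1 h2 => (hi _ h1).symm.trans (hi _ h2)⟩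

lemma Cond.subset {t t' : Set (W × ℕ+)} (ht : Cond t) (h : t' ⊆ t) : Cond t' :=
  ⟨ht.1.subset h, fun w n n' h1 h2 => ht.2 w n n' (h h1) (h h2)⟩

lemma exists_maxIndep (F : Filter I) (hF : Indep g F) : ∃ D ≤ F, MaxIndep g D := by
  have := zorn_le_nonempty₀ (α := (Filter I)ᵒᵈ) {D | Indep g (OrderDual.ofDual D)} ?_
    (OrderDual.toDual F) hF
  · obtain ⟨D, hFD, hD⟩ := this
    exact ⟨OrderDual.ofDual D, hFD, hD.1, fun D' h1 h2 => hD.2 (y := OrderDual.toDual D') h2 h1⟩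
  · intro c hc hchain y hy
    refine ⟨OrderDual.toDual (⨅ D ∈ c, OrderDual.ofDual D), ?_, fun z hz => ?_⟩
    · intro t ht X hX
      have hdir : DirectedOn ((fun D : (Filter I)ᵒᵈ => OrderDual.ofDual D) ⁻¹'o (· ≥ ·)) c :=
        hchain.directedOn
      obtain ⟨D, hD, hXD⟩ := (mem_biInf_of_directed hdir ⟨y, hy⟩).1 hX
      exact hc hD t ht X hXD
    · exact biInf_le (fun D : (Filter I)ᵒᵈ => OrderDual.ofDual D) hz

variable {D : Filter I}

lemma Dec.mono {t t' : Set (W × ℕ+)} {A : Set I} (h : Dec g D t A) (ht : t ⊆ t') :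
    Dec g D t' A := Eventually.mono h fun _ hi hi' => hi (cyl_mono ht hi')

lemma MaxIndep.exists_dec (hD : MaxIndep g D) {A : Set I} (hA : Aᶜ ∉ D) :
    ∃ u, Cond u ∧ Dec g D u A := by
  by_contra hcon
  push Not at hcon
  apply hA
  have : D ≤ D ⊓ 𝓟 Aᶜ := by
    refine hD.2 _ inf_le_left fun t ht X hX => ?_
    rw [mem_inf_principal] at hX
    by_contra hne
    apply hcon t ht
    filter_upwards [hX] with i hi hit
    by_contra hiA
    exact hne ⟨i, hi hiA, hit⟩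
  exact le_principal_iff.1 (this.trans inf_le_right)

lemma Indep.not_dec (hD : Indep g D) {t : Set (W × ℕ+)} (ht : Cond t) {A : Set I}
    (h1 : Dec g D t A) (h2 : Dec g D t Aᶜ) : False := by
  obtain ⟨i, hi, hit⟩ := hD t ht _ (h1.and h2)
  exact hi.2 hit (hi.1 hit)

lemma MaxIndep.dense (hD : MaxIndep g D) (A : Set I) {t : Set (W × ℕ+)} (ht : Cond t) :
    ∃ t', Cond t' ∧ t ⊆ t' ∧ (Dec g D t' A ∨ Dec g D t' Aᶜ) := by
  by_cases h : (cyl g t ∩ Aᶜ)ᶜ ∈ D
  · refine ⟨t, ht, Subset.rfl, Or.inl ?_⟩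
    filter_upwards [h] with i hi hit
    by_contra hiA
    exact hi ⟨hit, hiA⟩
  · obtain ⟨u, hu, hdec⟩ := hD.exists_dec h
    obtain ⟨i, hi, hiu⟩ := hD.1 u hu _ hdec
    refine ⟨t ∪ u, cond_of_nonempty (g := g) (ht.1.union hu.1) ⟨i, ?_⟩, subset_union_left,
      Or.inr ?_⟩
    · rw [cyl_union]; exact ⟨(hi hiu).1, hiu⟩
    · exact Dec.mono (Eventually.mono hdec fun j hj hju => (hj hju).2) subset_union_right

lemma Supp.compl {S : Set W} {A : Set I} (h : Supp g D S A) : Supp g D S Aᶜ := by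
  intro t ht hS
  obtain ⟨t', h1, h2, h3, h4⟩ := h t ht hS
  exact ⟨t', h1, h2, h3, by rw [compl_compl]; exact h4.symm⟩

lemma Supp.inter {S : Set W} {A B : Set I} (hA : Supp g D S A) (hB : Supp g D S B) :
    Supp g D S (A ∩ B) := by
  intro t ht hS
  obtain ⟨t1, h1, h2, h3, h4⟩ := hA t ht hS
  obtain ⟨t2, k1, k2, k3, k4⟩ := hB t1 h1 h2
  refine ⟨t2, k1, k2, h3.trans k3, ?_⟩
  rcases h4 with h4 | h4
  · rcases k4 with k4 | k4
    · left
      filter_upwards [h4.mono k3, k4] with i a b c using ⟨a c, b c⟩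
    · right
      filter_upwards [k4] with i b c d using b c d.2
  · right
    filter_upwards [h4.mono k3] with i a c d using a c d.1

lemma supp_of_mem {S : Set W} {A : Set I} (hA : A ∈ D) : Supp g D S A := by
  intro t ht hS
  exact ⟨t, ht, hS, Subset.rfl, Or.inl (by filter_upwards [hA] with i hi _ using hi)⟩

lemma Supp.mono {S S' : Set W} {A : Set I} (h : Supp g D S A) (hS : S ⊆ S') : Supp g D S' A := by
  intro t ht hon
  obtain ⟨t', h1, h2, h3, h4⟩ := h {x ∈ t | x.1 ∈ S} (ht.subset (sep_subset _ _)) fun x hx => hx.2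
  refine ⟨t' ∪ t, ⟨h1.1.union ht.1, ?_⟩, ?_, subset_union_right, ?_⟩
  · rintro w n n' (a | a) (b | b)
    · exact h1.2 w n n' a b
    · exact h1.2 w n n' a (h3 ⟨b, h2 (w, n) a⟩)
    · exact h1.2 w n n' (h3 ⟨a, h2 (w, n') b⟩) b
    · exact ht.2 w n n' a b
  · rintro x (a | a)
    · exact hS (h2 x a)
    · exact hon x a
  · exact h4.imp (fun k => k.mono subset_union_left) (fun k => k.mono subset_union_left)

lemma MaxIndep.inter_nonempty (hD : MaxIndep g D) {S : Set W} {A : Set I} (h : Supp g D S A)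
    (hA : Aᶜ ∉ D) {w : W} (hw : w ∉ S) (n : ℕ+) : ∃ i ∈ A, g w i = n := by
  obtain ⟨u, hu, hdec⟩ := hD.exists_dec hA
  obtain ⟨t', h1, h2, h3, h4⟩ := h {x ∈ u | x.1 ∈ S} (hu.subset (sep_subset _ _)) fun x hx => hx.2
  rcases h4 with h4 | h4
  · have hc : Cond (t' ∪ {(w, n)}) := by
      refine ⟨h1.1.union (finite_singleton _), ?_⟩
      rintro v m m' (a | a) (b | b)
      · exact h1.2 v m m' a b
      · rw [mem_singleton_iff, Prod.mk.injEq] at b
        exact absurd (b.1 ▸ h2 _ a) hw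
      · rw [mem_singleton_iff, Prod.mk.injEq] at a
        exact absurd (a.1 ▸ h2 _ b) hw
      · rw [mem_singleton_iff, Prod.mk.injEq] at a b
        exact a.2.trans b.2.symm
    obtain ⟨i, hi, hit⟩ := hD.1 _ hc _ h4
    rw [cyl_union] at hit
    exact ⟨i, hi hit.1, hit.2 (w, n) rfl⟩
  · exfalso
    have hc : Cond (t' ∪ u) := by
      refine ⟨h1.1.union hu.1, ?_⟩
      rintro v m m' (a | a) (b | b)
      · exact h1.2 v m m' a b
      · exact h1.2 v m m' a (h3 ⟨b, h2 (v, m) a⟩)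
      · exact h1.2 v m m' (h3 ⟨a, h2 (v, m') b⟩) b
      · exact hu.2 v m m' a b
    exact hD.1.not_dec hc (hdec.mono subset_union_right) (h4.mono subset_union_left)

lemma MaxIndep.exists_supp (hD : MaxIndep g D) (A : Set I) :
    ∃ S : Set W, S.Countable ∧ Supp g D S A := by
  classical
  have h : ∀ t : Set (W × ℕ+), ∃ t', Cond t →
      Cond t' ∧ t ⊆ t' ∧ (Dec g D t' A ∨ Dec g D t' Aᶜ) := by
    intro t
    by_cases ht : Cond t
    · obtain ⟨t', h⟩ := hD.dense A ht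
      exact ⟨t', fun _ => h⟩
    · exact ⟨t, fun h => absurd h ht⟩
  choose c hc using h
  let S : ℕ → Set W := fun k => Nat.rec ∅
    (fun _ T => T ∪ ⋃ t ∈ {t : Set (W × ℕ+) | Cond t ∧ On T t}, Prod.fst '' c t) k
  have hS0 : S 0 = ∅ := rfl
  have hSs : ∀ k, S (k + 1) =
      S k ∪ ⋃ t ∈ {t : Set (W × ℕ+) | Cond t ∧ On (S k) t}, Prod.fst '' c t := fun k => rfl
  have hcount : ∀ k, (S k).Countable := by
    intro k
    induction k with
    | zero => exact countable_empty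
    | succ k ih =>
      rw [hSs]
      refine ih.union (Countable.biUnion ?_ fun t ht => ((hc t ht.1).1.1.image _).countable)
      refine (countable_ofPred_finite_subset (ih.prod (countable_univ (α := ℕ+)))).mono ?_
      intro t ht
      exact ⟨ht.1.1, fun x hx => ⟨ht.2 x hx, mem_univ _⟩⟩
  have hmono : Monotone S := monotone_nat_of_le_succ fun k => by
    rw [hSs]; exact subset_union_left
  refine ⟨⋃ k, S k, countable_iUnion hcount, fun t ht hon => ?_⟩
  have : ∃ k, On (S k) t := by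
    have h1 : Prod.fst '' t ⊆ ⋃ k, S k := by
      rintro _ ⟨x, hx, rfl⟩; exact hon x hx
    obtain ⟨k, hk⟩ := hmono.directed_le.exists_mem_subset_of_finset_subset_biUnion
      (s := (ht.1.image Prod.fst).toFinset) (by simpa using h1)
    exact ⟨k, fun x hx => hk (by simp only [Finite.coe_toFinset]; exact ⟨x, hx, rfl⟩)⟩
  obtain ⟨k, hk⟩ := this
  refine ⟨c t, (hc t ht).1, fun x hx => mem_iUnion.2 ⟨k + 1, ?_⟩, (hc t ht).2.1, (hc t ht).2.2⟩
  rw [hSs]
  exact Or.inr (mem_biUnion (show t ∈ {t : Set (W × ℕ+) | Cond t ∧ On (S k) t} from ⟨ht, hk⟩)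
    ⟨x, hx, rfl⟩)

lemma supp_lt {S : Set W} {w : W} (hw : w ∈ S)
    (A : Set I) (hA : ∀ n, ∃ B, Supp g D S B ∧ ∀ i, g w i = n → (i ∈ A ↔ i ∈ B)) :
    Supp g D S A := by
  intro t ht hon
  have : ∃ t1 n, Cond t1 ∧ On S t1 ∧ t ⊆ t1 ∧ (w, n) ∈ t1 := by
    by_cases hex : ∃ n, (w, n) ∈ t
    · obtain ⟨n, hn⟩ := hex
      exact ⟨t, n, ht, hon, Subset.rfl, hn⟩
    · push Not at hex
      refine ⟨t ∪ {(w, 1)}, 1, ⟨ht.1.union (finite_singleton _), ?_⟩, ?_, subset_union_left,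
        Or.inr rfl⟩
      · rintro v m m' (a | a) (b | b)
        · exact ht.2 v m m' a b
        · rw [mem_singleton_iff, Prod.mk.injEq] at b
          exact absurd (b.1 ▸ a) (hex m)
        · rw [mem_singleton_iff, Prod.mk.injEq] at a
          exact absurd (a.1 ▸ b) (hex m')
        · rw [mem_singleton_iff, Prod.mk.injEq] at a b
          exact a.2.trans b.2.symm
      · rintro x (a | a)
        · exact hon x a
        · rw [mem_singleton_iff] at a; rw [a]; exact hw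
  obtain ⟨t1, n, h1, h2, h3, h4⟩ := this
  obtain ⟨B, hB, hAB⟩ := hA n
  obtain ⟨t2, k1, k2, k3, k4⟩ := hB t1 h1 h2
  refine ⟨t2, k1, k2, h3.trans k3, k4.imp (fun k => ?_) (fun k => ?_)⟩
  · filter_upwards [k] with i a b using (hAB i (b _ (k3 h4))).2 (a b)
  · filter_upwards [k] with i a b c using a b ((hAB i (b _ (k3 h4))).1 c)

end

end Pool.Agent.P.MP_efa640_lc
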