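import Mathlib
import Pool.Agent.P.MP_efa640_lc.Indep

namespace Pool.Agent.P.MP_efa640_lc

open Filter Set

section
variable {I W : Type} [LinearOrder W] [WellFoundedLT W] {g : W → I → ℕ+} {D : Filter I}

/-- the requirements below a lower set -/
def Req (g : W → I → ℕ+) (D : Filter I) (d : Set W) (U : Ultrafilter I) : Prop :=
  IsLowerSet d ∧ (U : Filter I) ≤ D ∧ ∀ w ∈ d, (∀ n : ℕ+, {i | n < g w i} ∈ U) ∧
    ∀ h : I → ℕ+, (∀ n : ℕ+, Supp g D (Iio w) {i | n < h i} ∧ {i | n < h i} ∈ U) →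
      {i | g w i < h i} ∈ U

omit [WellFoundedLT W] in
lemma supp_const_lt {S : Set W} {w : W} (hw : w ∈ S) (n : ℕ+) :
    Supp g D S {i | n < g w i} := by
  refine supp_lt hw _ fun m => ?_
  by_cases h : n < m
  · exact ⟨univ, supp_of_mem univ_mem, fun i hi => by simp [hi, h]⟩
  · exact ⟨univᶜ, (supp_of_mem univ_mem).compl, fun i hi => by simp [hi, h]⟩

omit [WellFoundedLT W] in
lemma supp_lt_fun {S : Set W} {w : W} (hw : w ∈ S) (h : I → ℕ+)
    (hh : ∀ n : ℕ+, Supp g D S {i | n < h i}) : Supp g D S {i | g w i < h i} :=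
  supp_lt hw _ fun m => ⟨_, hh m, fun i hi => by simp [hi]⟩

omit [WellFoundedLT W] in
/-- requirements pass to an ultrafilter that agrees on supported sets -/
lemma Req.transfer {d : Set W} {U U' : Ultrafilter I} (hU : Req g D d U)
    (hUU : ∀ A, Supp g D d A → A ∈ U → A ∈ U') {w : W} (hw : w ∈ d) :
    (∀ n : ℕ+, {i | n < g w i} ∈ U') ∧
    ∀ h : I → ℕ+, (∀ n : ℕ+, Supp g D (Iio w) {i | n < h i} ∧ {i | n < h i} ∈ U') →
      {i | g w i < h i} ∈ U' := by
  have hsub : Iio w ⊆ d := fun v hv => hU.1 (le_of_lt hv) hw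
  refine ⟨fun n => hUU _ (supp_const_lt hw n) ((hU.2.2 w hw).1 n), fun h hh => ?_⟩
  refine hUU _ (supp_lt_fun hw h fun n => (hh n).1.mono hsub) ((hU.2.2 w hw).2 h fun n => ?_)
  refine ⟨(hh n).1, ?_⟩
  by_contra hn
  have := hUU _ ((hh n).1.mono hsub).compl (Ultrafilter.compl_mem_iff_notMem.2 hn)
  exact Ultrafilter.compl_mem_iff_notMem.1 this (hh n).2

theorem exists_req (hD : MaxIndep g D) : ∃ U : Ultrafilter I, Req g D univ U := by
  classical
  have hne : D.NeBot := by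
    rw [← forall_mem_nonempty_iff_neBot]
    intro X hX
    exact (hD.1 ∅ ⟨finite_empty, fun _ _ _ h => h.elim⟩ X hX).mono inter_subset_left
  let T := {z : Set W × Ultrafilter I // Req g D z.1 z.2}
  let r : T → T → Prop := fun a b =>
    a.1.1 ⊆ b.1.1 ∧ ∀ A, Supp g D a.1.1 A → A ∈ a.1.2 → A ∈ b.1.2
  have rtrans : ∀ {a b c : T}, r a b → r b c → r a c := fun {a b c} h1 h2 =>
    ⟨h1.1.trans h2.1, fun A hA hU => h2.2 A (hA.mono h1.1) (h1.2 A hA hU)⟩
  have z0 : T := ⟨(∅, Ultrafilter.of D), isLowerSet_empty, Ultrafilter.of_le D,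
    fun _ h => h.elim⟩
  refine (exists_maximal_of_chains_bounded (r := r) ?_ rtrans).elim fun m hm => ?_
  swap
  · obtain ⟨⟨d, U⟩, hU⟩ := m
    by_cases hd : d = univ
    · exact ⟨U, hd ▸ hU⟩
    exfalso
    have hne' : (dᶜ).Nonempty := nonempty_compl.2 hd
    let w := wellFounded_lt.min _ hne'
    have hw : w ∉ d := wellFounded_lt.min_mem _ hne'
    have hdw : d = Iio w := by
      ext v
      constructor
      · intro hv
        by_contra hvw
        exact hw (hU.1 (not_lt.1 hvw) hv)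
      · intro hv
        by_contra hvd
        exact wellFounded_lt.not_lt_min _ (show v ∈ dᶜ from hvd) hv
    let S : Set (Set I) := {A | Supp g D d A ∧ A ∈ U} ∪ (range fun n : ℕ+ => {i | n < g w i}) ∪
      {A | ∃ h : I → ℕ+, (∀ n : ℕ+, Supp g D d {i | n < h i} ∧ {i | n < h i} ∈ U) ∧
        A = {i | g w i < h i}}
    have key : ∀ F : Finset (Set I), (↑F : Set (Set I)) ⊆ S → ∃ N : ℕ+, ∀ n ≥ N, ∃ A,
        Supp g D d A ∧ A ∈ U ∧ ∀ i ∈ A, g w i = n → i ∈ ⋂₀ (↑F : Set (Set I)) := by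
      intro F
      induction F using Finset.induction_on with
      | empty => exact fun _ => ⟨1, fun n _ => ⟨univ, supp_of_mem univ_mem, univ_mem, by simp⟩⟩
      | insert B F _ ih =>
        intro hF
        rw [Finset.coe_insert, insert_subset_iff] at hF
        obtain ⟨N, hN⟩ := ih hF.2
        rw [Finset.coe_insert, sInter_insert]
        rcases hF.1 with (hB | ⟨k, rfl⟩) | ⟨h, hh, rfl⟩
        · refine ⟨N, fun n hn => ?_⟩
          obtain ⟨A, h1, h2, h3⟩ := hN n hn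
          exact ⟨A ∩ B, h1.inter hB.1, inter_mem h2 hB.2, fun i hi hg => ⟨hi.2, h3 i hi.1 hg⟩⟩
        · refine ⟨max N (k + 1), fun n hn => ?_⟩
          obtain ⟨A, h1, h2, h3⟩ := hN n (le_of_max_le_left hn)
          refine ⟨A, h1, h2, fun i hi hg => ⟨?_, h3 i hi hg⟩⟩
          change k < g w i
          rw [hg]
          exact lt_of_lt_of_le (PNat.lt_add_right k 1) (le_of_max_le_right hn)
        · refine ⟨N, fun n hn => ?_⟩
          obtain ⟨A, h1, h2, h3⟩ := hN n hn
          refine ⟨A ∩ {i | n < h i}, h1.inter (hh n).1, inter_mem h2 (hh n).2,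
            fun i hi hg => ⟨?_, h3 i hi.1 hg⟩⟩
          change g w i < h i
          rw [hg]
          exact hi.2
    obtain ⟨U', hU'⟩ := Ultrafilter.exists_ultrafilter_of_finite_inter_nonempty S fun F hF => by
      obtain ⟨N, hN⟩ := key F hF
      obtain ⟨A, h1, h2, h3⟩ := hN N le_rfl
      obtain ⟨i, hi, hg⟩ := hD.inter_nonempty h1
        (fun hc => Ultrafilter.compl_mem_iff_notMem.1 (hU.2.1 hc) h2) hw N
      exact ⟨i, h3 i hi hg⟩
    have hagree : ∀ A, Supp g D d A → A ∈ U → A ∈ U' := fun A h1 h2 =>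
      hU' (Or.inl (Or.inl ⟨h1, h2⟩))
    have hreq : Req g D (Iic w) U' := by
      refine ⟨isLowerSet_Iic w, fun A hA => hagree A (supp_of_mem hA) (hU.2.1 hA), fun v hv => ?_⟩
      rcases lt_or_eq_of_le (show v ≤ w from hv) with hv | rfl
      · exact Req.transfer (d := d) hU hagree (hdw ▸ hv)
      · refine ⟨fun n => hU' (Or.inl (Or.inr ⟨n, rfl⟩)), fun h hh => hU' (Or.inr ⟨h, fun n => ?_, rfl⟩)⟩
        have h1 : Supp g D d {i | n < h i} := hdw ▸ (hh n).1
        refine ⟨h1, ?_⟩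
        by_contra hn
        have := hagree _ h1.compl (Ultrafilter.compl_mem_iff_notMem.2 hn)
        exact Ultrafilter.compl_mem_iff_notMem.1 this (hh n).2
    have := hm ⟨(Iic w, U'), hreq⟩ ⟨fun v hv => le_of_lt (show v < w from by
      have : v ∈ Iio w := hdw ▸ hv
      exact this), hagree⟩
    exact hw (this.1 (show w ∈ Iic w from le_rfl))
  · intro c hc
    rcases c.eq_empty_or_nonempty with rfl | ⟨y, hy⟩
    · exact ⟨z0, fun _ h => h.elim⟩
    let S : Set (Set I) := {A | ∃ a ∈ c, Supp g D a.1.1 A ∧ A ∈ a.1.2}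
    have rrefl : ∀ a : T, r a a := fun a => ⟨Subset.rfl, fun _ _ h => h⟩
    have key : ∀ F : Finset (Set I), (↑F : Set (Set I)) ⊆ S → ∃ a ∈ c,
        Supp g D a.1.1 (⋂₀ (↑F : Set (Set I))) ∧ ⋂₀ (↑F : Set (Set I)) ∈ a.1.2 := by
      intro F
      induction F using Finset.induction_on with
      | empty => exact fun _ => ⟨y, hy, by simpa using supp_of_mem univ_mem, by
          rw [Finset.coe_empty, sInter_empty]; exact univ_mem⟩
      | insert B F _ ih =>
        intro hF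
        rw [Finset.coe_insert, insert_subset_iff] at hF
        obtain ⟨a, ha, h1, h2⟩ := ih hF.2
        obtain ⟨b, hb, h3, h4⟩ := hF.1
        rw [Finset.coe_insert, sInter_insert]
        have : r a b ∨ r b a := by
          by_cases hab : a = b
          · exact Or.inl (hab ▸ rrefl a)
          · exact hc ha hb hab
        rcases this with h | h
        · exact ⟨b, hb, h3.inter (h1.mono h.1), inter_mem h4 (h.2 _ h1 h2)⟩
        · exact ⟨a, ha, (h3.mono h.1).inter h1, inter_mem (h.2 _ h3 h4) h2⟩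
    obtain ⟨U', hU'⟩ := Ultrafilter.exists_ultrafilter_of_finite_inter_nonempty S fun F hF => by
      obtain ⟨a, _, _, h2⟩ := key F hF
      exact Ultrafilter.nonempty_of_mem h2
    have hagree : ∀ a ∈ c, ∀ A, Supp g D a.1.1 A → A ∈ a.1.2 → A ∈ U' := fun a ha A h1 h2 =>
      hU' ⟨a, ha, h1, h2⟩
    refine ⟨⟨(⋃ a ∈ c, a.1.1, U'), isLowerSet_iUnion₂ fun a _ => a.2.1,
      fun A hA => hagree y hy A (supp_of_mem hA) (y.2.2.1 hA), fun w hw => ?_⟩,
      fun a ha => ⟨subset_biUnion_of_mem (u := fun a : T => a.1.1) ha, hagree a ha⟩⟩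
    obtain ⟨a, ha, hwa⟩ := mem_iUnion₂.1 hw
    exact Req.transfer a.2 (hagree a ha) hwa

end

/-- An independent family of continuum many functions on the primes. -/
lemma exists_indep : ∃ g : (ℕ → Bool) → ℕ+ → ℕ+,
    Indep g (𝓟 {p : ℕ+ | (p : ℕ).Prime}) := by
  classical
  let J := Σ n : ℕ, (Fin n → Bool) → ℕ+
  obtain ⟨e, he⟩ : ∃ e : J → ℕ, Function.Injective e := Countable.exists_injective_nat J
  let j : J → ℕ+ := fun x => ⟨Nat.nth Nat.Prime (e x), (Nat.prime_nth_prime _).pos⟩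
  have hj : Function.Injective j := fun x y h =>
    he (Nat.nth_injective Nat.infinite_setOfPred_prime (congrArg Subtype.val h))
  refine ⟨fun r => Function.extend j (fun x => x.2 fun k => r k) fun _ => 1, ?_⟩
  intro t ht X hX
  have hfin : (Prod.fst '' t).Finite := ht.1.image _
  have hsep : ∃ N : ℕ, ∀ r ∈ Prod.fst '' t, ∀ r' ∈ Prod.fst '' t,
      (∀ k < N, r k = r' k) → r = r' := by
    have h1 : ∀ z : (ℕ → Bool) × (ℕ → Bool), ∀ᶠ N in atTop,
        (∀ k < N, z.1 k = z.2 k) → z.1 = z.2 := by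
      intro z
      by_cases hz : z.1 = z.2
      · exact Eventually.of_forall fun _ _ => hz
      · obtain ⟨k, hk⟩ := Function.ne_iff.1 hz
        filter_upwards [eventually_gt_atTop k] with N hN h using absurd (h k hN) hk
    obtain ⟨N, hN⟩ := (((hfin.prod hfin).eventually_all (l := atTop)
      (p := fun z N => (∀ k < N, z.1 k = z.2 k) → z.1 = z.2)).2 fun z _ => h1 z).exists
    exact ⟨N, fun r hr r' hr' => hN (r, r') ⟨hr, hr'⟩⟩
  obtain ⟨N, hN⟩ := hsep
  let φ : (Fin N → Bool) → ℕ+ := fun s =>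
    if h : ∃ x ∈ t, (fun k : Fin N => x.1 k) = s then h.choose.2 else 1
  refine ⟨j ⟨N, φ⟩, mem_principal.1 hX (Nat.prime_nth_prime _), fun x hx => ?_⟩
  change Function.extend j _ _ (j ⟨N, φ⟩) = _
  rw [hj.extend_apply]
  have hex : ∃ y ∈ t, (fun k : Fin N => y.1 k) = fun k : Fin N => x.1 k := ⟨x, hx, rfl⟩
  change φ _ = _
  simp only [φ]
  rw [dif_pos hex]
  obtain ⟨h1, h2⟩ := hex.choose_spec
  have : hex.choose.1 = x.1 := hN _ ⟨_, h1, rfl⟩ _ ⟨_, hx, rfl⟩ fun k hk => congrFun h2 ⟨k, hk⟩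
  exact ht.2 x.1 _ _ (by rw [show (x.1, hex.choose.2) = hex.choose from Prod.ext this.symm rfl]; exact h1) hx

open Cardinal in
/-- For an infinite cardinal `l` whose successor is at most the continuum there is a nonprincipal
ultrafilter on the primes with a family of `succ l` infinite functions such that every family of at
most `l` infinite functions is strictly bounded below by a member. -/
theorem exists_ultrafilter (l : Cardinal.{0}) (hl : ℵ₀ ≤ l) (hc : Order.succ l ≤ continuum) :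
    ∃ (U : Ultrafilter ℕ+) (C : Set (ℕ+ → ℕ+)), {p : ℕ+ | (p : ℕ).Prime} ∈ U ∧
      Cardinal.mk C ≤ Order.succ l ∧ (∀ c ∈ C, ∀ n : ℕ+, {i | n < c i} ∈ U) ∧
      ∀ H : Set (ℕ+ → ℕ+), Cardinal.mk H ≤ l → (∀ h ∈ H, ∀ n : ℕ+, {i | n < h i} ∈ U) →
        ∃ c ∈ C, ∀ h ∈ H, {i | c i < h i} ∈ U := by
  classical
  let W := (Order.succ l).ord.ToType
  have hW : Cardinal.mk W = Order.succ l := by simp [W]
  obtain ⟨e⟩ : Nonempty (W ↪ (ℕ → Bool)) := by
    rw [← Cardinal.le_def, hW]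
    simpa using hc
  obtain ⟨g0, hg0⟩ := exists_indep
  let g : W → ℕ+ → ℕ+ := fun w => g0 (e w)
  have hg : Indep g (𝓟 {p : ℕ+ | (p : ℕ).Prime}) := by
    intro t ht X hX
    refine (hg0 (Prod.map e id '' t) ⟨ht.1.image _, ?_⟩ X hX).elim fun i ⟨hi, hit⟩ => ?_
    swap
    · exact ⟨i, hi, fun x hx => hit _ ⟨x, hx, rfl⟩⟩
    · rintro r n n' ⟨x, hx, h1⟩ ⟨y, hy, h2⟩
      simp only [Prod.map, id, Prod.mk.injEq] at h1 h2
      have : x.1 = y.1 := e.injective (h1.1.trans h2.1.symm)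
      rw [← h1.2, ← h2.2]
      exact ht.2 x.1 _ _ hx (this ▸ hy)
  obtain ⟨D, hDF, hD⟩ := exists_maxIndep _ hg
  obtain ⟨U, hU⟩ := exists_req hD
  refine ⟨U, range g, hU.2.1 (hDF (mem_principal_self _)), mk_range_le.trans hW.le, ?_, ?_⟩
  · rintro _ ⟨w, rfl⟩
    exact (hU.2.2 w (mem_univ w)).1
  · intro H hH hinf
    choose S hS1 hS2 using hD.exists_supp
    let B : Set W := ⋃ z : H × ℕ+, S {i | z.2 < z.1.1 i}
    have hB : Cardinal.mk B ≤ l := by
      refine (mk_iUnion_le _).trans ?_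
      have h1 : Cardinal.mk (H × ℕ+) ≤ l := by
        simp only [mk_prod, lift_id, mk_eq_aleph0]
        exact (mul_le_mul' hH hl).trans (mul_eq_self hl).le
      have h2 : ⨆ z : H × ℕ+, Cardinal.mk (S {i | z.2 < z.1.1 i}) ≤ l :=
        ciSup_le' fun z => (le_aleph0_iff_set_countable.2 (hS1 _)).trans hl
      exact (mul_le_mul' h1 h2).trans (mul_eq_self hl).le
    have hcof : ¬ IsCofinal B := by
      intro h
      have := Order.cof_le h
      rw [Ordinal.cof_toType, (isRegular_succ hl).cof_ord] at this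
      exact (Order.lt_succ l).not_ge (this.trans hB)
    obtain ⟨w, hw⟩ := not_isCofinal_iff.1 hcof
    refine ⟨g w, ⟨w, rfl⟩, fun h hh => (hU.2.2 w (mem_univ w)).2 h fun n => ⟨?_, hinf h hh n⟩⟩
    exact (hS2 _).mono fun v hv => hw v (mem_iUnion.2 ⟨(⟨h, hh⟩, n), hv⟩)

end Pool.Agent.P.MP_efa640_lc
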