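import Mathlib

namespace Pool.Agent.P.MP_efa640_lc

/-- The full language of the positive integers: one symbol for every finitary function and
every finitary relation on them. -/
def fullLang : FirstOrder.Language.{0, 0} :=
  ⟨fun n => (Fin n → ℕ+) → ℕ+, fun n => Set (Fin n → ℕ+)⟩

/-- Every symbol is interpreted on the positive integers by itself. -/
instance stdStructure : fullLang.Structure ℕ+ where
  funMap f x := f x
  RelMap R x := x ∈ (show Set _ from R)

/-- extension of a function -/
def starFun {M : Type*} [fullLang.Structure M] {n : ℕ} (f : (Fin n → ℕ+) → ℕ+)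
    (a : Fin n → M) : M :=
  FirstOrder.Language.Structure.funMap (L := fullLang) f a

/-- extension of a relation -/
def starRel {M : Type*} [fullLang.Structure M] {n : ℕ} (R : Set (Fin n → ℕ+))
    (a : Fin n → M) : Prop :=
  FirstOrder.Language.Structure.RelMap (L := fullLang) R a

/-- `v x` is the family of all `A` with `x` in the extension of `A`. -/
def v {M : Type*} [fullLang.Structure M] (x : M) : Set (Set ℕ+) :=
  {A | starRel {z | z 0 ∈ A} ![x]}

/-- sets closed upwards under divisibility -/
def upSets : Set (Set ℕ+) := {A | A = {m | ∃ a ∈ A, a ∣ m}}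

/-- the monad of an ultrafilter -/
def monad (M : Type*) [fullLang.Structure M] (P : Ultrafilter ℕ+) : Set M :=
  {x | v x = {A | A ∈ P}}

/-- classes of pairs `(p, x)`, two pairs being equivalent when `v (p ^ x)` agree on up-sets -/
def E (M : Type*) [fullLang.Structure M] (P : Ultrafilter ℕ+) :=
  Quotient (Setoid.ker fun z : monad M P × M =>
    v (starFun (fun a => a 0 ^ (a 1 : ℕ)) ![z.1.1, z.2]) ∩ upSets)

/-- the order on classes -/
def preceq (M : Type*) [fullLang.Structure M] (P : Ultrafilter ℕ+) (u w : E M P) : Prop :=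
  (u ≠ w ∧ ∃ (p : monad M P) (x y : M),
    starRel {a | a 0 < a 1} ![x, y] ∧ u = ⟦(p, x)⟧ ∧ w = ⟦(p, y)⟧) ∨ u = w

end Pool.Agent.P.MP_efa640_lc
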