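import Mathlib

namespace Pool.Agent.P.MP_efa640_lc

open Set

theorem iso_of_rel {L L' : Type*} [PartialOrder L] [PartialOrder L'] (S : L → L' → Prop)
    (h : ∀ a b a' b', S a b → S a' b' → (a ≤ a' ↔ b ≤ b')) (hl : ∀ a, ∃ b, S a b)
    (hr : ∀ b, ∃ a, S a b) : ∃ e : L ≃o L', ∀ a, S a (e a) := by
  choose f hf using hl
  let f' : L ↪o L' := OrderEmbedding.ofMapLEIff f fun a a' => (h _ _ _ _ (hf a) (hf a')).symm
  have hs : Function.Surjective f' := by
    intro b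
    obtain ⟨a, ha⟩ := hr b
    exact ⟨a, le_antisymm ((h _ _ _ _ (hf a) ha).1 le_rfl) ((h _ _ _ _ ha (hf a)).1 le_rfl)⟩
  exact ⟨RelIso.ofSurjective f' hs, hf⟩

/-- nonempty lower sets -/
abbrev NL (L : Type*) [LE L] := {D : Set L // IsLowerSet D ∧ D.Nonempty}

/-- principal lower set -/
def princ {L : Type*} [Preorder L] (l : L) : NL L := ⟨Iic l, isLowerSet_Iic l, nonempty_Iic⟩

/-- order-theoretic description of principal lower sets -/
def IsPr {X : Type*} [Preorder X] (D : X) : Prop :=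
  (∀ D', D ≤ D') ∨ ∃ D0 < D, ∀ D' < D, D' ≤ D0

theorem isPr_iff {L : Type*} [LinearOrder L] (D : NL L) : IsPr D ↔ ∃ l, princ l = D := by
  constructor
  · rintro (h | ⟨D0, h0, h⟩)
    · obtain ⟨l, hl⟩ := D.2.2
      exact ⟨l, le_antisymm (fun x hx => D.2.1 hx hl) (h _)⟩
    · obtain ⟨l, hl, hl0⟩ := exists_of_ssubset (show D0.1 ⊂ D.1 from h0)
      refine ⟨l, ?_⟩
      have h1 : princ l ≤ D := fun x hx => D.2.1 hx hl
      by_contra hne
      exact hl0 (h _ (lt_of_le_of_ne h1 hne) (show l ∈ Iic l from le_rfl))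
  · rintro ⟨l, rfl⟩
    by_cases h : (Iio l).Nonempty
    · refine Or.inr ⟨⟨Iio l, isLowerSet_Iio l, h⟩, show Iio l ⊂ Iic l from Iio_ssubset_Iic_self,
        fun D' hD' x hx => ?_⟩
      obtain ⟨y, hy, hy'⟩ := exists_of_ssubset (show D'.1 ⊂ Iic l from hD')
      by_contra hxl
      exact hy' (D'.2.1 (le_trans hy (not_lt.1 hxl)) hx)
    · refine Or.inl fun D' x hx => ?_
      obtain ⟨y, hy⟩ := D'.2.2
      refine D'.2.1 (le_trans hx ?_) hy
      by_contra hyl
      exact h ⟨y, not_le.1 hyl⟩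

theorem IsPr.map {X Y : Type*} [Preorder X] [Preorder Y] (e : X ≃o Y) {D : X} (h : IsPr D) :
    IsPr (e D) := by
  rcases h with h | ⟨D0, h0, h⟩
  · exact Or.inl fun D' => by simpa using e.monotone (h (e.symm D'))
  · refine Or.inr ⟨e D0, e.lt_iff_lt.2 h0, fun D' hD' => ?_⟩
    have := h (e.symm D') (by rw [← e.lt_iff_lt]; simpa using hD')
    simpa using e.monotone this

theorem nl_iso_iff {L L' : Type*} [LinearOrder L] [LinearOrder L'] :
    Nonempty (NL L ≃o NL L') ↔ Nonempty (L ≃o L') := by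
  constructor
  · rintro ⟨e⟩
    have hp : ∀ {K : Type _} [LinearOrder K] (a b : K), princ a ≤ princ b ↔ a ≤ b :=
      fun a b => Iic_subset_Iic
    have hp' : ∀ (a b : L'), princ a ≤ princ b ↔ a ≤ b := fun a b => Iic_subset_Iic
    obtain ⟨f, _⟩ := iso_of_rel (fun (a : L) (b : L') => e (princ a) = princ b)
      (fun a b a' b' h h' => by rw [← hp, ← hp', ← h, ← h', e.le_iff_le])
      (fun a => by
        obtain ⟨b, hb⟩ := (isPr_iff _).1 (((isPr_iff _).2 ⟨a, rfl⟩).map e)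
        exact ⟨b, hb.symm⟩)
      (fun b => by
        obtain ⟨a, ha⟩ := (isPr_iff _).1 (((isPr_iff _).2 ⟨b, rfl⟩).map e.symm)
        exact ⟨a, by rw [ha]; simp⟩)
    exact ⟨f⟩
  · rintro ⟨e⟩
    obtain ⟨f, _⟩ := iso_of_rel (fun (D : NL L) (D' : NL L') => D.1 = e ⁻¹' D'.1)
      (fun a b a' b' h h' => by
        change a.1 ⊆ a'.1 ↔ b.1 ⊆ b'.1
        rw [h, h', preimage_subset_preimage_iff (by rw [e.surjective.range_eq]; simp)])
      (fun a => ⟨⟨e.symm ⁻¹' a.1, a.2.1.preimage e.symm.monotone,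
        a.2.2.preimage e.symm.surjective⟩, by ext x; simp⟩)
      (fun b => ⟨⟨e ⁻¹' b.1, b.2.1.preimage e.monotone, b.2.2.preimage e.surjective⟩, rfl⟩)
    exact ⟨f⟩

/-- Transfinite construction of length `ω₁`. -/
theorem exists_compatible {X ι : Type} [Nonempty X] (C : X → X → Prop)
    (hι : Cardinal.mk ι ≤ Cardinal.aleph 1) (T : ι → Set X) (S0 : Set X) (h0 : S0.Countable)
    (g0 : ∀ x ∈ S0, ∀ y ∈ S0, C x y)
    (step : ∀ S : Set X, S0 ⊆ S → S.Countable → (∀ x ∈ S, ∀ y ∈ S, C x y) → ∀ i, ∃ z ∈ T i,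
      ∀ x ∈ insert z S, ∀ y ∈ insert z S, C x y) :
    ∃ S, S0 ⊆ S ∧ (∀ x ∈ S, ∀ y ∈ S, C x y) ∧ ∀ i, ∃ z ∈ S, z ∈ T i := by
  classical
  let W := (Cardinal.aleph 1).ord.ToType
  have hW : Cardinal.mk W = Cardinal.aleph 1 := by simp [W]
  obtain ⟨e⟩ : Nonempty (ι ↪ W) := by rw [← Cardinal.le_def, hW]; exact hι
  let r : ι → ι → Prop := fun i j => e i < e j
  have wf : WellFounded r := InvImage.wf e wellFounded_lt
  have hc : ∀ i, {j | r j i}.Countable := by
    intro i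
    have : (Iio (e i)).Countable := by
      rw [Cardinal.countable_iff_lt_aleph_one]
      exact Cardinal.mk_Iio_toType_ord_lt _
    exact this.preimage_of_injOn e.injective.injOn
  let G : Set X → ι → X := fun S i => Classical.epsilon fun z => z ∈ T i ∧
    ∀ x ∈ insert z S, ∀ y ∈ insert z S, C x y
  let F : ι → X := wf.fix fun i rec => G (S0 ∪ range fun j : {j // r j i} => rec j.1 j.2) i
  have hF : ∀ i, F i = G (S0 ∪ F '' {j | r j i}) i := by
    intro i
    have : F '' {j | r j i} = range fun j : {j // r j i} => F j.1 := by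
      rw [image_eq_range]; rfl
    rw [this]
    exact wf.fix_eq _ i
  have comb : ∀ J : Set ι, (∀ i ∈ J, ∀ x ∈ insert (F i) (S0 ∪ F '' {j | r j i}),
      ∀ y ∈ insert (F i) (S0 ∪ F '' {j | r j i}), C x y) →
      ∀ x ∈ S0 ∪ F '' J, ∀ y ∈ S0 ∪ F '' J, C x y := by
    rintro J hJ x (hx | ⟨i, hi, rfl⟩) y (hy | ⟨j, hj, rfl⟩)
    · exact g0 x hx y hy
    · exact hJ j hj _ (Or.inr (Or.inl hx)) _ (Or.inl rfl)
    · exact hJ i hi _ (Or.inl rfl) _ (Or.inr (Or.inl hy))
    · rcases lt_trichotomy (e i) (e j) with h | h | h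
      · exact hJ j hj _ (Or.inr (Or.inr ⟨i, h, rfl⟩)) _ (Or.inl rfl)
      · rw [e.injective h]
        exact hJ j hj _ (Or.inl rfl) _ (Or.inl rfl)
      · exact hJ i hi _ (Or.inl rfl) _ (Or.inr (Or.inr ⟨j, h, rfl⟩))
  have main : ∀ i, F i ∈ T i ∧ ∀ x ∈ insert (F i) (S0 ∪ F '' {j | r j i}),
      ∀ y ∈ insert (F i) (S0 ∪ F '' {j | r j i}), C x y := by
    intro i
    induction i using wf.induction with
    | _ i ih =>
      have := step (S0 ∪ F '' {j | r j i}) subset_union_left (h0.union ((hc i).image _))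
        (comb _ fun j hj => (ih j hj).2) i
      rw [hF i]
      exact Classical.epsilon_spec this
  exact ⟨S0 ∪ F '' univ, subset_union_left, comb _ fun i _ => (main i).2,
    fun i => ⟨F i, Or.inr ⟨i, trivial, rfl⟩, (main i).1⟩⟩

end Pool.Agent.P.MP_efa640_lc
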