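import Mathlib
import Pool.Agent.P.MP_efa640_lc.Order
import Pool.Agent.P.MP_efa640_lc.Coinit

namespace Pool.Agent.P.MP_efa640_lc

open Filter Set

/-- compatibility of two pairs of a back-and-forth system -/
def Compat {G H : Type} [CommRing G] [LE G] [CommRing H] [LE H] (x y : G × H) : Prop :=
  ∀ n : ℤ, x.1 + n ≤ y.1 ↔ x.2 + n ≤ y.2

/-- countable saturation -/
def CSat (H : Type) [LE H] : Prop :=
  ∀ A B : Set H, A.Countable → B.Countable → (∀ a ∈ A, ∀ b ∈ B, a ≤ b) →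
    ∃ c, (∀ a ∈ A, a ≤ c) ∧ ∀ b ∈ B, c ≤ b

theorem ext_step {G H : Type} [CommRing G] [LinearOrder G] [IsStrictOrderedRing G]
    [CommRing H] [LinearOrder H] [IsStrictOrderedRing H]
    (dG : ∀ x y : G, x < y → x + 1 ≤ y) (sat : CSat H)
    (S : Set (G × H)) (hS : S.Countable) (g : ∀ x ∈ S, ∀ y ∈ S, Compat x y) (a : G) :
    ∃ b, ∀ x ∈ insert (a, b) S, ∀ y ∈ insert (a, b) S, Compat x y := by
  let φ : (G × H) × ℤ → H := fun z => z.1.2 + z.2
  have hc : (S ×ˢ (univ : Set ℤ)).Countable := hS.prod countable_univ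
  obtain ⟨b, h1, h2⟩ := sat (φ '' {z ∈ S ×ˢ (univ : Set ℤ) | z.1.1 + z.2 ≤ a})
    (φ '' {z ∈ S ×ˢ (univ : Set ℤ) | a ≤ z.1.1 + z.2})
    ((hc.mono (sep_subset _ _)).image _) ((hc.mono (sep_subset _ _)).image _) (by
      rintro _ ⟨⟨x, n⟩, ⟨hx, hxa⟩, rfl⟩ _ ⟨⟨y, m⟩, ⟨hy, hya⟩, rfl⟩
      have := (g x hx.1 y hy.1 (n - m)).1 (by push_cast; dsimp only at hxa hya; linarith)
      push_cast at this
      dsimp only [φ]
      linarith)
  have H1 : ∀ x ∈ S, ∀ n : ℤ, x.1 + n ≤ a → x.2 + n ≤ b := fun x hx n h =>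
    h1 _ ⟨(x, n), ⟨⟨hx, trivial⟩, h⟩, rfl⟩
  have H2 : ∀ x ∈ S, ∀ n : ℤ, a ≤ x.1 + n → b ≤ x.2 + n := fun x hx n h =>
    h2 _ ⟨(x, n), ⟨⟨hx, trivial⟩, h⟩, rfl⟩
  refine ⟨b, ?_⟩
  rintro x (rfl | hx) y (rfl | hy) n
  · simp
  · dsimp only
    constructor
    · intro h
      have := H2 y hy (-n) (by push_cast; linarith)
      push_cast at this
      linarith
    · intro h
      by_contra hn
      have := H1 y hy (1 - n) (by have := dG _ _ (not_le.1 hn); push_cast; linarith)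
      push_cast at this
      linarith
  · dsimp only
    refine ⟨H1 x hx n, fun h => ?_⟩
    by_contra hn
    have := H2 x hx (n - 1) (by have := dG _ _ (not_le.1 hn); push_cast; linarith)
    push_cast at this
    linarith
  · exact g x hx y hy n

theorem exists_total {G H : Type} [CommRing G] [LinearOrder G] [IsStrictOrderedRing G]
    [CommRing H] [LinearOrder H] [IsStrictOrderedRing H]
    (dG : ∀ x y : G, x < y → x + 1 ≤ y) (dH : ∀ x y : H, x < y → x + 1 ≤ y)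
    (sG : CSat G) (sH : CSat H) (cG : Cardinal.mk G ≤ Cardinal.aleph 1)
    (cH : Cardinal.mk H ≤ Cardinal.aleph 1) :
    ∃ S : Set (G × H), (0, 0) ∈ S ∧ (∀ x ∈ S, ∀ y ∈ S, x.1 ≤ y.1 ↔ x.2 ≤ y.2) ∧
      (∀ a, ∃ b, (a, b) ∈ S) ∧ ∀ b, ∃ a, (a, b) ∈ S := by
  obtain ⟨S, h0, h1, h2⟩ := exists_compatible (X := G × H) (ι := G ⊕ H) Compat
    (by
      simp only [Cardinal.mk_sum, Cardinal.lift_id]
      exact (add_le_add cG cH).trans (Cardinal.add_eq_self (Cardinal.aleph0_le_aleph 1)).le)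
    (Sum.elim (fun a => {z | z.1 = a}) fun b => {z | z.2 = b}) {(0, 0)} (countable_singleton _)
    (by rintro _ rfl _ rfl n; simp)
    (by
      rintro S - hS g (a | b)
      · obtain ⟨b, hb⟩ := ext_step dG sH S hS g a
        exact ⟨(a, b), rfl, hb⟩
      · obtain ⟨a, ha⟩ := ext_step dH sG (Prod.swap '' S) (hS.image _)
          (by rintro _ ⟨x, hx, rfl⟩ _ ⟨y, hy, rfl⟩ n; exact (g x hx y hy n).symm) b
        refine ⟨(a, b), rfl, fun x hx y hy n => (ha x.swap ?_ y.swap ?_ n).symm⟩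
        · rcases hx with rfl | hx
          exacts [Or.inl rfl, Or.inr ⟨x, hx, rfl⟩]
        · rcases hy with rfl | hy
          exacts [Or.inl rfl, Or.inr ⟨y, hy, rfl⟩])
  refine ⟨S, h0 rfl, fun x hx y hy => by simpa using h1 x hx y hy 0, fun a => ?_, fun b => ?_⟩
  · obtain ⟨z, hz, rfl⟩ := h2 (Sum.inl a)
    exact ⟨z.2, hz⟩
  · obtain ⟨z, hz, rfl⟩ := h2 (Sum.inr b)
    exact ⟨z.1, hz⟩

theorem germ_discrete (P : Ultrafilter ℕ+) (x y : Germ (P : Filter ℕ+) ℤ) (h : x < y) :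
    x + 1 ≤ y := by
  induction x using Germ.inductionOn with | _ f => ?_
  induction y using Germ.inductionOn with | _ g => ?_
  rw [Germ.coe_lt] at h
  rw [← Germ.coe_one, ← Germ.coe_add, Germ.coe_le]
  filter_upwards [h] with i hi using hi

theorem exists_between_finite {A B : Set ℤ} (hA : A.Finite) (hB : B.Finite)
    (h : ∀ a ∈ A, ∀ b ∈ B, a ≤ b) : ∃ c, (∀ a ∈ A, a ≤ c) ∧ ∀ b ∈ B, c ≤ b := by
  rcases A.eq_empty_or_nonempty with rfl | hne
  · obtain ⟨c, hc⟩ := hB.bddBelow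
    exact ⟨c, fun _ h => h.elim, fun b hb => hc hb⟩
  · obtain ⟨c, hc, hc'⟩ := exists_max_image A id hA hne
    exact ⟨c, hc', h c hc⟩

theorem germ_csat (P : Ultrafilter ℕ+) (hP : (P : Filter ℕ+) ≤ cofinite) :
    CSat (Germ (P : Filter ℕ+) ℤ) := by
  classical
  intro A B hA hB h
  have hrep : ∀ x : Germ (P : Filter ℕ+) ℤ, ∃ f : ℕ+ → ℤ, (f : Germ (P : Filter ℕ+) ℤ) = x :=
    fun x => Germ.inductionOn x fun f => ⟨f, rfl⟩
  choose rep hrep using hrep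
  obtain ⟨e, he⟩ := Set.countable_iff_exists_injOn.1 (hA.union hB)
  have fin : ∀ k, {x ∈ A ∪ B | e x ≤ k}.Finite := fun k =>
    Finite.of_finite_image (f := e) ((finite_Iic k).subset (by rintro _ ⟨x, hx, rfl⟩; exact hx.2))
      (he.mono (sep_subset _ _))
  have finA : ∀ k, {x ∈ A | e x ≤ k}.Finite := fun k =>
    (fin k).subset fun x hx => ⟨Or.inl hx.1, hx.2⟩
  have finB : ∀ k, {x ∈ B | e x ≤ k}.Finite := fun k =>
    (fin k).subset fun x hx => ⟨Or.inr hx.1, hx.2⟩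
  let R : ℕ → ℕ+ → ℤ → Prop := fun k i z =>
    (∀ a ∈ A, e a ≤ k → rep a i ≤ z) ∧ ∀ b ∈ B, e b ≤ k → z ≤ rep b i
  have hR : ∀ k, ∀ᶠ i in (P : Filter ℕ+), ∃ z, R k i z := by
    intro k
    have : ∀ᶠ i in (P : Filter ℕ+), ∀ a ∈ {x ∈ A | e x ≤ k}, ∀ b ∈ {x ∈ B | e x ≤ k},
        rep a i ≤ rep b i := by
      rw [(finA k).eventually_all]
      intro a ha
      rw [(finB k).eventually_all]
      intro b hb
      have := h a ha.1 b hb.1
      rwa [← hrep a, ← hrep b, Germ.coe_le] at this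
    filter_upwards [this] with i hi
    obtain ⟨c, h1, h2⟩ := exists_between_finite ((finA k).image fun a => rep a i)
      ((finB k).image fun a => rep a i)
      (by rintro _ ⟨a, ha, rfl⟩ _ ⟨b, hb, rfl⟩; exact hi a ha b hb)
    exact ⟨c, fun a ha hk => h1 _ ⟨a, ⟨ha, hk⟩, rfl⟩, fun b hb hk => h2 _ ⟨b, ⟨hb, hk⟩, rfl⟩⟩
  let K : ℕ+ → ℕ := fun i => Nat.findGreatest (fun k => ∃ z, R k i z) i
  let c : ℕ+ → ℤ := fun i => Classical.epsilon (R (K i) i)
  have key : ∀ k, ∀ᶠ i in (P : Filter ℕ+), k ≤ K i ∧ R (K i) i (c i) := by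
    intro k
    have h1 : ∀ᶠ i : ℕ+ in (P : Filter ℕ+), k ≤ i := by
      refine hP ?_
      rw [mem_cofinite]
      refine (finite_Iic k.succPNat).subset fun i hi => ?_
      have : ¬ k ≤ (i : ℕ) := hi
      change (i : ℕ) ≤ k + 1
      omega
    filter_upwards [h1, hR k] with i hi hz
    exact ⟨Nat.le_findGreatest hi hz,
      Classical.epsilon_spec (Nat.findGreatest_spec (P := fun k => ∃ z, R k i z) hi hz)⟩
  refine ⟨(c : Germ (P : Filter ℕ+) ℤ), fun a ha => ?_, fun b hb => ?_⟩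
  · rw [← hrep a, Germ.coe_le]
    filter_upwards [key (e a)] with i hi using hi.2.1 a ha hi.1
  · rw [← hrep b, Germ.coe_le]
    filter_upwards [key (e b)] with i hi using hi.2.2 b hb hi.1

theorem germ_card (P : Ultrafilter ℕ+) :
    Cardinal.mk (Germ (P : Filter ℕ+) ℤ) ≤ Cardinal.continuum := by
  have : Function.Surjective (fun f : ℕ+ → ℤ => (f : Germ (P : Filter ℕ+) ℤ)) :=
    fun x => Germ.inductionOn x fun f => ⟨f, rfl⟩
  exact (Cardinal.mk_le_of_surjective this).trans (by simp)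

/-- the positive part -/
def toInt (P : Ultrafilter ℕ+) (x : Germ (P : Filter ℕ+) ℕ+) : Germ (P : Filter ℕ+) ℤ :=
  x.map fun n : ℕ+ => ((n : ℕ) : ℤ)

theorem toInt_le (P : Ultrafilter ℕ+) (x y : Germ (P : Filter ℕ+) ℕ+) :
    toInt P x ≤ toInt P y ↔ x ≤ y := by
  induction x using Germ.inductionOn with | _ f => ?_
  induction y using Germ.inductionOn with | _ g => ?_
  simp [toInt, Germ.coe_le, EventuallyLE]

theorem mem_range_toInt (P : Ultrafilter ℕ+) (z : Germ (P : Filter ℕ+) ℤ) :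
    (∃ x, toInt P x = z) ↔ ¬ z ≤ 0 := by
  rw [not_le]
  constructor
  · rintro ⟨x, rfl⟩
    induction x using Germ.inductionOn with | _ f => ?_
    simp [toInt, Germ.coe_pos]
  · induction z using Germ.inductionOn with | _ f => ?_
    rw [Germ.coe_pos]
    intro h
    refine ⟨((fun i => (f i).toNat.toPNat') : ℕ+ → ℕ+), ?_⟩
    rw [toInt, Germ.map_coe, Germ.coe_eq]
    filter_upwards [h] with i hi
    have : 0 < (f i).toNat := by omega
    simp only [Function.comp, Nat.toPNat'_coe, if_pos this]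
    omega

theorem iso_of_CH (h : Cardinal.continuum.{0} = Cardinal.aleph 1) (P Q : Ultrafilter ℕ+)
    (hP : (P : Filter ℕ+) ≤ cofinite) (hQ : (Q : Filter ℕ+) ≤ cofinite) :
    Nonempty (Germ (P : Filter ℕ+) ℕ+ ≃o Germ (Q : Filter ℕ+) ℕ+) := by
  obtain ⟨S, h0, h1, h2, h3⟩ := exists_total (germ_discrete P) (germ_discrete Q)
    (germ_csat P hP) (germ_csat Q hQ) (h ▸ germ_card P) (h ▸ germ_card Q)
  obtain ⟨e, _⟩ := iso_of_rel (fun x y => (toInt P x, toInt Q y) ∈ S)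
    (fun a b a' b' h h' => by rw [← toInt_le, ← toInt_le Q]; exact h1 _ h _ h')
    (fun a => by
      obtain ⟨b, hb⟩ := h2 (toInt P a)
      obtain ⟨y, rfl⟩ := (mem_range_toInt Q b).2
        (fun hb0 => (mem_range_toInt P _).1 ⟨a, rfl⟩ ((h1 _ hb _ h0).2 hb0))
      exact ⟨y, hb⟩)
    (fun b => by
      obtain ⟨a, ha⟩ := h3 (toInt Q b)
      obtain ⟨y, rfl⟩ := (mem_range_toInt P a).2
        (fun hb0 => (mem_range_toInt Q _).1 ⟨b, rfl⟩ ((h1 _ ha _ h0).1 hb0))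
      exact ⟨y, ha⟩)
  exact ⟨e⟩

theorem const_covBy (P : Ultrafilter ℕ+) (n : ℕ+) :
    (↑n : Germ (P : Filter ℕ+) ℕ+) ⋖ (↑(n + 1) : Germ (P : Filter ℕ+) ℕ+) := by
  refine ⟨Germ.const_lt (PNat.lt_add_right n 1), fun x h1 h2 => ?_⟩
  induction x using Germ.inductionOn with | _ f => ?_
  have h1' := Germ.coe_lt.1 (show ((fun _ => n : ℕ+ → ℕ+) : Germ (P : Filter ℕ+) ℕ+) < f from h1)
  have h2' := Germ.coe_lt.1
    (show (f : Germ (P : Filter ℕ+) ℕ+) < ((fun _ => n + 1 : ℕ+ → ℕ+) : Germ (P : Filter ℕ+) ℕ+)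
      from h2)
  obtain ⟨i, a, b⟩ := (h1'.and h2').exists
  exact absurd (PNat.lt_add_one_iff.1 b) (not_le.2 a)

theorem map_const {P Q : Ultrafilter ℕ+}
    (e : Germ (P : Filter ℕ+) ℕ+ ≃o Germ (Q : Filter ℕ+) ℕ+) (n : ℕ+) : e ↑n = ↑n := by
  induction n with
  | one => exact e.map_bot
  | succ n ih =>
    have := (apply_covBy_apply_iff e).2 (const_covBy P n)
    rw [ih] at this
    exact this.unique_right (const_covBy Q n)

theorem exists_not_iso (h : Cardinal.continuum.{0} ≠ Cardinal.aleph 1) :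
    ∃ P Q : Ultrafilter ℕ+, {p : ℕ+ | (p : ℕ).Prime} ∈ P ∧ (∀ n, P ≠ pure n) ∧
      {p : ℕ+ | (p : ℕ).Prime} ∈ Q ∧ (∀ n, Q ≠ pure n) ∧
      ¬ Nonempty (Germ (P : Filter ℕ+) ℕ+ ≃o Germ (Q : Filter ℕ+) ℕ+) := by
  obtain ⟨P, C, hP, hC, hC1, hC2⟩ := exists_ultrafilter Cardinal.aleph0 le_rfl
    (by rw [Cardinal.succ_aleph0]; exact Cardinal.aleph_one_le_continuum)
  obtain ⟨Q, C', hQ, -, hC1', hC2'⟩ := exists_ultrafilter (Cardinal.aleph 1)
    (Cardinal.aleph0_le_aleph 1)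
    (Order.succ_le_of_lt (lt_of_le_of_ne Cardinal.aleph_one_le_continuum h.symm))
  have np : ∀ (U : Ultrafilter ℕ+) (c : ℕ+ → ℕ+), (∀ n : ℕ+, {i | n < c i} ∈ U) →
      ∀ n, U ≠ pure n := by
    rintro U c hc n rfl
    simpa using hc (c n)
  obtain ⟨c0, hc0, -⟩ := hC2 ∅ (by simp) (by simp)
  obtain ⟨c1, hc1, -⟩ := hC2' ∅ (by simp) (by simp)
  refine ⟨P, Q, hP, np P c0 (hC1 _ hc0), hQ, np Q c1 (hC1' _ hc1), ?_⟩
  rintro ⟨e⟩
  have hrep : ∀ (U : Ultrafilter ℕ+) (x : Germ (U : Filter ℕ+) ℕ+), ∃ f : ℕ+ → ℕ+,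
      (f : Germ (U : Filter ℕ+) ℕ+) = x := fun U x => Germ.inductionOn x fun f => ⟨f, rfl⟩
  choose rep hrep using hrep
  have inf : ∀ (U : Ultrafilter ℕ+) (f : ℕ+ → ℕ+) (n : ℕ+),
      {i | n < f i} ∈ U ↔ (↑n : Germ (U : Filter ℕ+) ℕ+) < f := fun U f n =>
    (Germ.coe_lt (φ := U) (f := fun _ => n) (g := f)).symm
  have lt : ∀ (U : Ultrafilter ℕ+) (f g : ℕ+ → ℕ+),
      {i | f i < g i} ∈ U ↔ (f : Germ (U : Filter ℕ+) ℕ+) < g := fun U f g =>
    (Germ.coe_lt (φ := U) (f := f) (g := g)).symm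
  obtain ⟨c', hc', hlt⟩ := hC2' ((fun c : ℕ+ → ℕ+ => rep Q (e c)) '' C)
    (Cardinal.mk_image_le.trans (by rwa [Cardinal.succ_aleph0] at hC)) (by
      rintro _ ⟨c, hc, rfl⟩ n
      rw [inf, hrep, ← map_const e n, e.lt_iff_lt, ← inf]
      exact hC1 c hc n)
  obtain ⟨c, hc, hlt'⟩ := hC2 {rep P (e.symm c')} (by simp) (by
      rintro _ rfl n
      rw [inf, hrep, ← map_const e.symm n, e.symm.lt_iff_lt, ← inf]
      exact hC1' c' hc' n)
  have h1 := hlt _ ⟨c, hc, rfl⟩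
  have h2 := hlt' _ rfl
  rw [lt, hrep] at h1 h2
  rw [← e.lt_iff_lt, e.apply_symm_apply] at h2
  exact lt_asymm h1 h2

end Pool.Agent.P.MP_efa640_lc
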