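import Mathlib
import Pool.Agent.P.MP_efa640_lc.Defs

namespace Pool.Agent.P.MP_efa640_lc

open FirstOrder FirstOrder.Language Filter Set

universe u

variable {M : Type u} [fullLang.Structure M]

theorem transfer (ι : ℕ+ ↪ₑ[fullLang] M) {n : ℕ} (φ : fullLang.BoundedFormula Empty n)
    (h : ∀ x : Fin n → ℕ+, φ.Realize (@default _ Unique.instInhabited) x) (a : Fin n → M) :
    φ.Realize (@default _ Unique.instInhabited) a := by
  have h1 : ℕ+ ⊨ φ.alls := BoundedFormula.realize_alls.2 h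
  exact BoundedFormula.realize_alls.1 ((ι.map_sentence φ.alls).1 h1) a

/-- atomic formula -/
def rl {n m : ℕ} (R : Set (Fin m → ℕ+)) (t : Fin m → fullLang.Term (Empty ⊕ Fin n)) :
    fullLang.BoundedFormula Empty n :=
  Relations.boundedFormula (L := fullLang) R t

/-- variables -/
def vr {n : ℕ} (j : Fin n) : fullLang.Term (Empty ⊕ Fin n) := Term.var (Sum.inr j)

/-- applied function symbol -/
def fn {n m : ℕ} (F : (Fin m → ℕ+) → ℕ+) (t : Fin m → fullLang.Term (Empty ⊕ Fin n)) :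
    fullLang.Term (Empty ⊕ Fin n) :=
  Term.func (L := fullLang) F t

variable (ι : ℕ+ ↪ₑ[fullLang] M) {n m : ℕ}
include ι

theorem rel_inter (R S : Set (Fin n → ℕ+)) (a : Fin n → M) :
    starRel (R ∩ S) a ↔ starRel R a ∧ starRel S a := by
  have := transfer ι ((rl (R ∩ S) vr).iff (rl R vr ⊓ rl S vr))
    (fun x => by rw [BoundedFormula.realize_iff, BoundedFormula.realize_inf]; exact Iff.rfl) a
  rw [BoundedFormula.realize_iff, BoundedFormula.realize_inf] at this
  exact this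

theorem rel_compl (R : Set (Fin n → ℕ+)) (a : Fin n → M) :
    starRel Rᶜ a ↔ ¬ starRel R a := by
  have := transfer ι ((rl Rᶜ vr).iff (rl R vr).not)
    (fun x => by rw [BoundedFormula.realize_iff]; exact Iff.rfl) a
  rw [BoundedFormula.realize_iff] at this
  exact this

theorem rel_univ (a : Fin n → M) : starRel univ a :=
  transfer ι (rl univ vr) (fun _ => mem_univ _) a

/-- the type of a tuple -/
noncomputable def tp (a : Fin n → M) : Ultrafilter (Fin n → ℕ+) :=
  Ultrafilter.ofComplNotMemIff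
    { sets := {R | starRel R a}
      univ_sets := rel_univ ι a
      sets_of_superset := fun {R S} hR hRS => by
        rw [← inter_eq_left.2 hRS] at hR
        exact ((rel_inter ι R S a).1 hR).2
      inter_sets := fun {R S} hR hS => (rel_inter ι R S a).2 ⟨hR, hS⟩ }
    fun R => by
      change ¬ starRel Rᶜ a ↔ starRel R a
      rw [rel_compl ι, not_not]

theorem mem_tp (R : Set (Fin n → ℕ+)) (a : Fin n → M) : R ∈ tp ι a ↔ starRel R a := Iff.rfl

theorem rel_comp (R : Set (Fin m → ℕ+)) (F : Fin m → (Fin n → ℕ+) → ℕ+) (a : Fin n → M) :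
    starRel R (fun i => starFun (F i) a) ↔ {x | (fun i => F i x) ∈ R} ∈ tp ι a := by
  have := transfer ι ((rl R fun i => fn (F i) vr).iff (rl {x | (fun i => F i x) ∈ R} vr))
    (fun x => by rw [BoundedFormula.realize_iff]; exact Iff.rfl) a
  rw [BoundedFormula.realize_iff] at this
  exact this

theorem fun_comp (G : (Fin m → ℕ+) → ℕ+) (F : Fin m → (Fin n → ℕ+) → ℕ+) (a : Fin n → M) :
    starFun G (fun i => starFun (F i) a) = starFun (fun x => G fun i => F i x) a :=
  transfer ι ((fn G fun i => fn (F i) vr).bdEqual (fn (fun x => G fun i => F i x) vr))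
    (fun _ => rfl) a

theorem fun_proj (i : Fin n) (a : Fin n → M) : starFun (fun x => x i) a = a i :=
  transfer ι ((fn (fun x => x i) vr).bdEqual (vr i)) (fun _ => rfl) a

theorem fun_eq (F G : (Fin n → ℕ+) → ℕ+) (a : Fin n → M) :
    starFun F a = starFun G a ↔ {x | F x = G x} ∈ tp ι a := by
  have := transfer ι (((fn F vr).bdEqual (fn G vr)).iff (rl {x | F x = G x} vr))
    (fun x => by rw [BoundedFormula.realize_iff]; exact Iff.rfl) a
  rw [BoundedFormula.realize_iff] at this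
  exact this

omit ι in
/-- extension of the order -/
def slt (x y : M) : Prop := starRel {a | a 0 < a 1} ![x, y]

omit ι in
/-- extension of exponentiation -/
def pw (p x : M) : M := starFun (fun a => a 0 ^ (a 1 : ℕ)) ![p, x]

omit ι in
/-- extension of a unary function -/
def app (f : ℕ+ → ℕ+) (p : M) : M := starFun (fun a => f (a 0)) ![p]

theorem slt_iff (F G : (Fin n → ℕ+) → ℕ+) (a : Fin n → M) :
    slt (starFun F a) (starFun G a) ↔ {x | F x < G x} ∈ tp ι a := by
  have h : ![starFun F a, starFun G a] = fun i => starFun (![F, G] i) a := by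
    ext i; fin_cases i <;> rfl
  rw [slt, h, rel_comp ι]
  rfl

theorem pw_eq (F G : (Fin n → ℕ+) → ℕ+) (a : Fin n → M) :
    pw (starFun F a) (starFun G a) = starFun (fun x => F x ^ (G x : ℕ)) a := by
  have h : ![starFun F a, starFun G a] = fun i => starFun (![F, G] i) a := by
    ext i; fin_cases i <;> rfl
  rw [pw, h, fun_comp ι]
  rfl

theorem app_eq (f : ℕ+ → ℕ+) (F : (Fin n → ℕ+) → ℕ+) (a : Fin n → M) :
    app f (starFun F a) = starFun (fun x => f (F x)) a := by
  have h : ![starFun F a] = fun i => starFun (![F] i) a := by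
    ext i; fin_cases i; rfl
  rw [app, h, fun_comp ι]
  rfl

theorem mem_v (A : Set ℕ+) (F : (Fin n → ℕ+) → ℕ+) (a : Fin n → M) :
    A ∈ v (starFun F a) ↔ {x | F x ∈ A} ∈ tp ι a := by
  have h : ![starFun F a] = fun i => starFun (![F] i) a := by
    ext i; fin_cases i; rfl
  change starRel _ _ ↔ _
  rw [h, rel_comp ι]
  rfl

theorem slt_trans {x y z : M} (h1 : slt x y) (h2 : slt y z) : slt x z := by
  have e0 : x = starFun (fun w => w 0) ![x, y, z] := (fun_proj ι 0 ![x, y, z]).symm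
  have e1 : y = starFun (fun w => w 1) ![x, y, z] := (fun_proj ι 1 ![x, y, z]).symm
  have e2 : z = starFun (fun w => w 2) ![x, y, z] := (fun_proj ι 2 ![x, y, z]).symm
  generalize ![x, y, z] = a at e0 e1 e2
  subst e0 e1 e2
  rw [slt_iff ι] at *
  filter_upwards [h1, h2] with w a b using lt_trans a b

theorem slt_total (x y : M) : slt x y ∨ x = y ∨ slt y x := by
  have e0 : x = starFun (fun w => w 0) ![x, y] := (fun_proj ι 0 ![x, y]).symm
  have e1 : y = starFun (fun w => w 1) ![x, y] := (fun_proj ι 1 ![x, y]).symm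
  generalize ![x, y] = a at e0 e1
  subst e0 e1
  rw [slt_iff ι, slt_iff ι, fun_eq ι, ← Ultrafilter.union_mem_iff, ← Ultrafilter.union_mem_iff]
  exact mem_of_superset univ_mem fun w _ => lt_trichotomy (w 0) (w 1)

theorem slt_irrefl (x : M) : ¬ slt x x := by
  have e0 : x = starFun (fun w => w 0) ![x] := (fun_proj ι 0 ![x]).symm
  generalize ![x] = a at e0
  subst e0
  rw [slt_iff ι]
  simp

theorem slt_app (f g : ℕ+ → ℕ+) (p : M) : slt (app f p) (app g p) ↔ {i | f i < g i} ∈ v p := by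
  have e0 : p = starFun (fun w => w 0) ![p] := (fun_proj ι 0 ![p]).symm
  generalize ![p] = a at e0
  subst e0
  rw [app_eq ι, app_eq ι, slt_iff ι, mem_v ι]
  rfl

theorem app_eq_app (f g : ℕ+ → ℕ+) (p : M) : app f p = app g p ↔ {i | f i = g i} ∈ v p := by
  have e0 : p = starFun (fun w => w 0) ![p] := (fun_proj ι 0 ![p]).symm
  generalize ![p] = a at e0
  subst e0
  rw [app_eq ι, app_eq ι, fun_eq ι, mem_v ι]
  rfl

theorem pw_mem_iff (A B C : Set ℕ+) (f : ℕ+ → ℕ+)
    (h : ∀ q ∈ C, ∀ k : ℕ+, q ^ (k : ℕ) ∈ A ↔ q ∈ B ∧ f q ≤ k) (p x : M) (hp : C ∈ v p) :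
    A ∈ v (pw p x) ↔ B ∈ v p ∧ ¬ slt x (app f p) := by
  have e0 : p = starFun (fun w => w 0) ![p, x] := (fun_proj ι 0 ![p, x]).symm
  have e1 : x = starFun (fun w => w 1) ![p, x] := (fun_proj ι 1 ![p, x]).symm
  generalize ![p, x] = a at e0 e1
  subst e0 e1
  rw [mem_v ι] at hp
  rw [pw_eq ι, app_eq ι, mem_v ι, mem_v ι, slt_iff ι, ← Ultrafilter.compl_mem_iff_notMem]
  constructor
  · intro h1
    constructor
    · filter_upwards [hp, h1] with w a b using ((h _ a _).1 b).1
    · filter_upwards [hp, h1] with w a b using not_lt.2 ((h _ a _).1 b).2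
  · rintro ⟨h1, h2⟩
    filter_upwards [hp, h1, h2] with w a b c using (h _ a _).2 ⟨b, not_lt.1 c⟩

omit ι in
theorem definable_rel (R : Set (Fin 2 → ℕ+)) (p : M) :
    (univ : Set M).Definable₁ fullLang {x | starRel R ![p, x]} := by
  rw [Definable₁, definable_iff_exists_formula_sum]
  refine ⟨Relations.formula₂ (L := fullLang) R (Term.var (Sum.inl ⟨p, trivial⟩))
    (Term.var (Sum.inr 0)), ?_⟩
  ext w
  exact (Formula.realize_rel₂ (L := fullLang) (R := R)
    (t₁ := Term.var (Sum.inl (⟨p, trivial⟩ : ↥(univ : Set M))))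
    (t₂ := Term.var (Sum.inr 0)) (v := Sum.elim (Subtype.val : ↥(univ : Set M) → M) w)).symm

omit ι in
/-- the saturation hypothesis -/
def Sat (M : Type u) [fullLang.Structure M] : Prop :=
  ∀ 𝓕 : Set (Set M), (∀ X ∈ 𝓕, (Set.univ : Set M).Definable₁ fullLang X) →
      Cardinal.mk 𝓕 ≤ Cardinal.continuum →
      (∀ 𝓖 ⊆ 𝓕, 𝓖.Finite → (⋂₀ 𝓖).Nonempty) → (⋂₀ 𝓕).Nonempty

omit ι in
theorem Sat.rel (hs : Sat M) (p : M) (𝓡 : Set (Set (Fin 2 → ℕ+)))
    (h : ∀ 𝓖 ⊆ 𝓡, 𝓖.Finite → ∃ x, ∀ R ∈ 𝓖, starRel R ![p, x]) :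
    ∃ x, ∀ R ∈ 𝓡, starRel R ![p, x] := by
  refine (hs ((fun R => {x | starRel R ![p, x]}) '' 𝓡) ?_ ?_ ?_).imp
    fun x hx R hR => hx _ ⟨R, hR, rfl⟩
  · rintro _ ⟨R, _, rfl⟩
    exact definable_rel R p
  · have h1 := Cardinal.mk_image_le_lift (f := fun R : Set (Fin 2 → ℕ+) =>
      {x : M | starRel R ![p, x]}) (s := 𝓡)
    have h2 : Cardinal.mk 𝓡 ≤ Cardinal.continuum :=
      (Cardinal.mk_set_le _).trans (by simp)
    have h3 := h1.trans (Cardinal.lift_le.2 h2)
    simpa using h3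
  · intro 𝓖 h1 h2
    obtain ⟨𝓖', h3, h4, rfl⟩ := (Set.Finite.exists_subset_finite_image_eq h2 h1)
    obtain ⟨x, hx⟩ := h 𝓖' h3 h4
    exact ⟨x, by rintro _ ⟨R, hR, rfl⟩; exact hx R hR⟩

end Pool.Agent.P.MP_efa640_lc
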