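import Mathlib
import Pool.Agent.P.MP_efa640_lc.Transfer
import Pool.Agent.P.MP_efa640_lc.Germs

namespace Pool.Agent.P.MP_efa640_lc

open FirstOrder FirstOrder.Language Filter Set

universe u

variable {M : Type u} [fullLang.Structure M]

/-- a representative of a germ -/
noncomputable def rep {P : Ultrafilter ℕ+} (l : Germ (P : Filter ℕ+) ℕ+) : ℕ+ → ℕ+ :=
  Classical.choose (Germ.inductionOn l (fun f => ⟨f, rfl⟩) :
    ∃ f : ℕ+ → ℕ+, (f : Germ (P : Filter ℕ+) ℕ+) = l)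

theorem coe_rep {P : Ultrafilter ℕ+} (l : Germ (P : Filter ℕ+) ℕ+) :
    (rep l : Germ (P : Filter ℕ+) ℕ+) = l :=
  Classical.choose_spec (Germ.inductionOn l (fun f => ⟨f, rfl⟩) :
    ∃ f : ℕ+ → ℕ+, (f : Germ (P : Filter ℕ+) ℕ+) = l)

theorem mem_v_monad {P : Ultrafilter ℕ+} (p : monad M P) (A : Set ℕ+) : A ∈ v p.1 ↔ A ∈ P := by
  rw [show v p.1 = {A | A ∈ P} from p.2]
  rfl

/-- the lower set attached to a pair -/
def low {P : Ultrafilter ℕ+} (z : monad M P × M) : Set (Germ (P : Filter ℕ+) ℕ+) :=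
  {l | ¬ slt z.2 (app (rep l) z.1.1)}

theorem exists_thr (A : Set ℕ+) (hA : A ∈ upSets) : ∃ (B : Set ℕ+) (f : ℕ+ → ℕ+),
    ∀ q ∈ (univ : Set ℕ+), ∀ k : ℕ+, q ^ (k : ℕ) ∈ A ↔ q ∈ B ∧ f q ≤ k := by
  classical
  refine ⟨{q | {k : ℕ+ | q ^ (k : ℕ) ∈ A}.Nonempty},
    fun q => if h : {k : ℕ+ | q ^ (k : ℕ) ∈ A}.Nonempty then wellFounded_lt.min _ h else 1,
    fun q _ k => ⟨fun h => ?_, ?_⟩⟩
  · have hne : {k : ℕ+ | q ^ (k : ℕ) ∈ A}.Nonempty := ⟨k, h⟩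
    refine ⟨hne, ?_⟩
    dsimp only
    rw [dif_pos hne]
    exact wellFounded_lt.min_le (s := {k : ℕ+ | q ^ (k : ℕ) ∈ A}) h
  · rintro ⟨hne, h⟩
    have hne : {k : ℕ+ | q ^ (k : ℕ) ∈ A}.Nonempty := hne
    dsimp only at h
    rw [dif_pos hne] at h
    rw [show A = _ from hA]
    exact ⟨_, wellFounded_lt.min_mem _ hne, pow_dvd_pow q h⟩

theorem exists_up (f : ℕ+ → ℕ+) : ∃ A ∈ upSets,
    ∀ q ∈ {p : ℕ+ | (p : ℕ).Prime}, ∀ k : ℕ+, q ^ (k : ℕ) ∈ A ↔ q ∈ (univ : Set ℕ+) ∧ f q ≤ k := by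
  refine ⟨{m | ∃ q : ℕ+, (q : ℕ).Prime ∧ q ^ (f q : ℕ) ∣ m}, ?_, fun q hq k => ⟨?_, ?_⟩⟩
  · ext m
    constructor
    · exact fun h => ⟨m, h, dvd_rfl⟩
    · rintro ⟨a, ⟨q, hq, h1⟩, h2⟩
      exact ⟨q, hq, h1.trans h2⟩
  · rintro ⟨r, hr, h⟩
    rw [PNat.dvd_iff, PNat.pow_coe, PNat.pow_coe] at h
    have h1 : (r : ℕ) ∣ q := hr.dvd_of_dvd_pow ((dvd_pow_self _ (f r).ne_zero).trans h)
    have h2 : r = q := PNat.eq ((Nat.prime_dvd_prime_iff_eq hr hq).1 h1)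
    subst h2
    exact ⟨trivial, (Nat.pow_dvd_pow_iff_le_right hr.one_lt).1 h⟩
  · rintro ⟨-, h⟩
    exact ⟨q, hq, pow_dvd_pow q h⟩

variable (ι : ℕ+ ↪ₑ[fullLang] M) {P : Ultrafilter ℕ+}
include ι

theorem mem_v_proj {n : ℕ} (A : Set ℕ+) (a : Fin n → M) (i : Fin n) :
    A ∈ v (a i) ↔ {z | z i ∈ A} ∈ tp ι a := by
  rw [← mem_v ι, fun_proj ι]

theorem monad_nonempty (hs : Sat M) (P : Ultrafilter ℕ+) : Nonempty (monad M P) := by
  obtain ⟨x, hx⟩ := hs.rel (ι 1) {R | ∀ᶠ n in (P : Filter ℕ+), ![1, n] ∈ R} (by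
    intro 𝓖 h1 h2
    obtain ⟨n, hn⟩ := (h2.eventually_all.2 h1).exists
    refine ⟨ι n, fun R hR => ?_⟩
    have := (ι.map_rel (n := 2) R ![1, n]).2 (hn R hR)
    rwa [show ι ∘ ![1, n] = ![ι 1, ι n] by ext i; fin_cases i <;> rfl] at this)
  have h : ∀ A ∈ P, {z | z 1 ∈ A} ∈ tp ι ![ι 1, x] := fun A hA => hx _ hA
  refine ⟨x, ?_⟩
  ext A
  refine (mem_v_proj ι A ![ι 1, x] 1).trans ⟨fun h1 => ?_, h A⟩
  by_contra hA
  exact Ultrafilter.compl_mem_iff_notMem.1 (h _ (Ultrafilter.compl_mem_iff_notMem.2 hA)) h1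

theorem slt_rep (p : monad M P) (l l' : Germ (P : Filter ℕ+) ℕ+) :
    slt (app (rep l) p.1) (app (rep l') p.1) ↔ l < l' := by
  rw [slt_app ι, mem_v_monad]
  conv_rhs => rw [← coe_rep l, ← coe_rep l', Germ.coe_lt]
  rfl

theorem app_rep (p : monad M P) (f : ℕ+ → ℕ+) :
    app (rep (f : Germ (P : Filter ℕ+) ℕ+)) p.1 = app f p.1 := by
  rw [app_eq_app ι, mem_v_monad]
  exact Germ.coe_eq.1 (coe_rep (f : Germ (P : Filter ℕ+) ℕ+))

theorem low_lower (z : monad M P × M) : IsLowerSet (low z) := by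
  intro a b hba ha hb
  rcases hba.lt_or_eq with h | rfl
  · exact ha (slt_trans ι hb ((slt_rep ι _ _ _).2 h))
  · exact ha hb

theorem slt_app_iff (f : ℕ+ → ℕ+) (p x : M) :
    slt x (app f p) ↔ {z | z 1 < f (z 0)} ∈ tp ι ![p, x] := by
  have := slt_iff ι (fun z => z 1) (fun z => f (z 0)) ![p, x]
  rwa [← app_eq ι, fun_proj ι, fun_proj ι] at this

theorem low_nonempty (z : monad M P × M) : (low z).Nonempty := by
  refine ⟨((fun _ => 1 : ℕ+ → ℕ+) : Germ (P : Filter ℕ+) ℕ+), ?_⟩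
  change ¬ slt _ _
  rw [app_rep ι, slt_app_iff ι]
  simp

theorem low_surj (hs : Sat M) (p : monad M P) (D : NL (Germ (P : Filter ℕ+) ℕ+)) :
    ∃ x, low (p, x) = D.1 := by
  have : Nonempty D.1 := D.2.2.to_subtype
  obtain ⟨x, hx⟩ := hs.rel p.1
    {R | ∀ᶠ l in (atTop : Filter D.1), starRel R ![p.1, app (rep l.1) p.1]} (by
    intro 𝓖 h1 h2
    obtain ⟨l, hl⟩ := (h2.eventually_all.2 h1).exists
    exact ⟨_, hl⟩)
  refine ⟨x, ?_⟩
  ext l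
  change ¬ slt x (app (rep l) p.1) ↔ _
  rw [slt_app_iff ι]
  constructor
  · intro h
    by_contra hl
    refine h (hx _ (Eventually.of_forall fun l' => ?_))
    refine (slt_app_iff ι _ _ _).1 ((slt_rep ι _ _ _).2 ?_)
    by_contra hll
    exact hl (D.2.1 (not_lt.1 hll) l'.2)
  · intro hl
    rw [← Ultrafilter.compl_mem_iff_notMem]
    refine hx _ ?_
    filter_upwards [eventually_ge_atTop (⟨l, hl⟩ : D.1)] with l' hl'
    rw [← mem_tp ι, Ultrafilter.compl_mem_iff_notMem, ← slt_app_iff ι, slt_rep ι]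
    exact not_lt.2 hl'

theorem low_eq_iff (hP : {p : ℕ+ | (p : ℕ).Prime} ∈ P) (z w : monad M P × M) :
    v (pw z.1.1 z.2) ∩ upSets = v (pw w.1.1 w.2) ∩ upSets ↔ low z = low w := by
  constructor
  · intro h
    ext l
    obtain ⟨A, hA, hf⟩ := exists_up (rep l)
    have h1 := pw_mem_iff ι A _ _ _ hf z.1.1 z.2 ((mem_v_monad _ _).2 hP)
    have h2 := pw_mem_iff ι A _ _ _ hf w.1.1 w.2 ((mem_v_monad _ _).2 hP)
    have h3 := Set.ext_iff.1 h A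
    simp only [mem_inter_iff, hA, and_true, h1, h2, mem_v_monad, Ultrafilter.mem_coe.1 univ_mem,
      true_and] at h3
    exact h3
  · intro h
    ext A
    refine and_congr_left fun hA => ?_
    obtain ⟨B, f, hf⟩ := exists_thr A hA
    rw [pw_mem_iff ι A _ _ _ hf z.1.1 z.2 ((mem_v_monad _ _).2 univ_mem),
      pw_mem_iff ι A _ _ _ hf w.1.1 w.2 ((mem_v_monad _ _).2 univ_mem), mem_v_monad, mem_v_monad,
      ← app_rep ι, ← app_rep ι w.1]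
    exact and_congr_right fun _ => Set.ext_iff.1 h _

theorem iso_NL (hs : Sat M) (hP : {p : ℕ+ | (p : ℕ).Prime} ∈ P) :
    Nonempty (preceq M P ≃r ((· ≤ ·) : NL (Germ (P : Filter ℕ+) ℕ+) → _ → Prop)) := by
  obtain ⟨p⟩ := monad_nonempty ι hs P
  let Φ : E M P → NL (Germ (P : Filter ℕ+) ℕ+) :=
    Quotient.lift (fun z => ⟨low z, low_lower ι z, low_nonempty ι z⟩)
      fun z w h => Subtype.ext ((low_eq_iff ι hP z w).1 h)
  have inj : Function.Injective Φ := by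
    intro a b
    induction a using Quotient.inductionOn with | _ z => ?_
    induction b using Quotient.inductionOn with | _ w => ?_
    intro h
    exact Quotient.sound ((low_eq_iff ι hP z w).2 (congrArg Subtype.val h))
  have surj : ∀ D, ∃ x, Φ ⟦(p, x)⟧ = D := fun D => by
    obtain ⟨x, hx⟩ := low_surj ι hs p D
    exact ⟨x, Subtype.ext hx⟩
  refine ⟨⟨Equiv.ofBijective Φ ⟨inj, fun D => ⟨_, (surj D).choose_spec⟩⟩, fun {a b} => ?_⟩⟩
  change Φ a ≤ Φ b ↔ _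
  constructor
  · intro h
    by_cases hab : a = b
    · exact Or.inr hab
    obtain ⟨x, hx⟩ := surj (Φ a)
    obtain ⟨y, hy⟩ := surj (Φ b)
    refine Or.inl ⟨hab, p, x, y, ?_, (inj hx).symm, (inj hy).symm⟩
    have hlt : Φ a < Φ b := lt_of_le_of_ne h (inj.ne hab)
    rw [← hx, ← hy] at hlt
    obtain ⟨l, h1, h2⟩ := exists_of_ssubset (show low (p, x) ⊂ low (p, y) from hlt)
    have h2 : slt x (app (rep l) p.1) := not_not.1 h2
    rcases slt_total ι (app (rep l) p.1) y with h3 | h3 | h3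
    · exact slt_trans ι h2 h3
    · exact h3 ▸ h2
    · exact absurd h3 h1
  · rintro (⟨-, q, x, y, h, rfl, rfl⟩ | rfl)
    · exact fun l hl hl' => hl (slt_trans ι h hl')
    · exact le_rfl

theorem iso_iff (hs : Sat M) {Q : Ultrafilter ℕ+} (hP : {p : ℕ+ | (p : ℕ).Prime} ∈ P)
    (hQ : {p : ℕ+ | (p : ℕ).Prime} ∈ Q) : Nonempty (preceq M P ≃r preceq M Q) ↔
      Nonempty (Germ (P : Filter ℕ+) ℕ+ ≃o Germ (Q : Filter ℕ+) ℕ+) := by
  obtain ⟨a⟩ := iso_NL ι hs hP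
  obtain ⟨b⟩ := iso_NL ι hs hQ
  rw [← nl_iso_iff]
  exact ⟨fun ⟨e⟩ => ⟨a.symm.trans (e.trans b)⟩, fun ⟨e⟩ => ⟨a.trans (RelIso.trans e b.symm)⟩⟩

theorem main (hs : Sat M) :
    (∀ P Q : Ultrafilter ℕ+,
      {p : ℕ+ | (p : ℕ).Prime} ∈ P → (∀ n, P ≠ pure n) →
      {p : ℕ+ | (p : ℕ).Prime} ∈ Q → (∀ n, Q ≠ pure n) →
      Nonempty (preceq M P ≃r preceq M Q)) ↔
    Cardinal.continuum.{0} = Cardinal.aleph 1 := by
  constructor
  · intro h
    by_contra hc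
    obtain ⟨P, Q, h1, h2, h3, h4, h5⟩ := exists_not_iso hc
    exact h5 ((iso_iff ι hs h1 h3).1 (h P Q h1 h2 h3 h4))
  · intro h P Q h1 h2 h3 h4
    refine (iso_iff ι hs h1 h3).2 (iso_of_CH h P Q ?_ ?_)
    · exact P.le_cofinite_or_eq_pure.resolve_right fun ⟨n, hn⟩ => h2 n hn
    · exact Q.le_cofinite_or_eq_pure.resolve_right fun ⟨n, hn⟩ => h4 n hn

end Pool.Agent.P.MP_efa640_lc
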